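import Pool.Agent.Helper97.CD.Indep
import Pool.Agent.Helper97.CC.Graph

/-!
Greedy colouring, correction of the parities, decomposition into circuits.
-/

set_option autoImplicit false
set_option linter.unusedSectionVars false

namespace Pool.Agent.Helper97.CD

open Finset Pool.Agent.Helper55.Rota Pool.Agent.Helper97.CC

variable {E : Type} [Fintype E] [DecidableEq E]

/-- greedy extension of a colouring of the independent set `R'` with the colours `< s` -/
lemma greedy (Γ : E → E → Prop) (hs : ∀ x y, Γ x y → Γ y x) (hir : ∀ x, ¬ Γ x x) (s : ℕ)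
    (hd : ∀ x, ∃ N : Finset E, N.card + 1 ≤ s ∧ ∀ y, Γ x y → y ∈ N) (R' : Finset E)
    (hR : ∀ x ∈ R', ∀ y ∈ R', ¬ Γ x y) (φ₀ : E → ℕ) (hφ : ∀ x ∈ R', φ₀ x < s) :
    ∀ S : Finset E, Disjoint S R' → ∃ φ : E → ℕ, (∀ x ∈ R', φ x = φ₀ x) ∧ (∀ x ∈ S, φ x < s + 1) ∧
      (∀ x ∈ S ∪ R', ∀ y ∈ S ∪ R', Γ x y → φ x ≠ φ y) ∧
      (∀ x ∈ S, ∀ y ∈ R', Γ x y → φ x ≠ s) := by
  classical
  intro S
  induction S using Finset.induction_on with
  | empty =>
    intro _
    refine ⟨φ₀, fun x _ => rfl, by simp, ?_, by simp⟩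
    intro x hx y hy hxy
    rw [empty_union] at hx hy
    exact absurd hxy (hR x hx y hy)
  | insert a S haS ih =>
    intro hdis
    rw [disjoint_insert_left] at hdis
    obtain ⟨φ, h1, h2, h3, h4⟩ := ih hdis.2
    obtain ⟨N, hN1, hN2⟩ := hd a
    have hcard : (insert s (N.image φ)).card < (range (s + 1)).card := by
      rw [card_range]
      have := card_insert_le s (N.image φ)
      have := card_image_le (s := N) (f := φ)
      omega
    obtain ⟨c, hc1, hc2⟩ := exists_mem_notMem_of_card_lt_card hcard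
    rw [mem_insert, not_or] at hc2
    set ψ : E → ℕ := fun x => if x = a then c else φ x with hψ
    have ha : ψ a = c := by simp [hψ]
    have hne : ∀ x, x ≠ a → ψ x = φ x := fun x hx => by simp [hψ, hx]
    have hneS : ∀ x ∈ S, x ≠ a := fun x hx h => haS (h ▸ hx)
    have hneR : ∀ x ∈ R', x ≠ a := fun x hx h => hdis.1 (h ▸ hx)
    have hnew : ∀ y, Γ a y → c ≠ φ y := fun y hy h => hc2.2 (h ▸ mem_image_of_mem φ (hN2 y hy))
    refine ⟨ψ, ?_, ?_, ?_, ?_⟩
    · intro x hx
      rw [hne x (hneR x hx)]; exact h1 x hx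
    · intro x hx
      rcases mem_insert.1 hx with h | h
      · rw [h, ha]; exact mem_range.1 hc1
      · rw [hne x (hneS x h)]; exact h2 x h
    · intro x hx y hy hxy
      by_cases hxa : x = a
      · have hya : y ≠ a := by
          intro h; rw [hxa, h] at hxy; exact hir a hxy
        rw [hxa, ha, hne y hya]
        exact hnew y (hxa ▸ hxy)
      · by_cases hya : y = a
        · rw [hya, ha, hne x hxa]
          exact fun h => hnew x (hya ▸ hs _ _ hxy) h.symm
        · rw [hne x hxa, hne y hya]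
          apply h3 x _ y _ hxy
          · rw [mem_union, mem_insert] at hx
            rw [mem_union]; tauto
          · rw [mem_union, mem_insert] at hy
            rw [mem_union]; tauto
    · intro x hx y hy hxy
      rcases mem_insert.1 hx with h | h
      · rw [h, ha]
        exact hc2.1
      · rw [hne x (hneS x h)]; exact h4 x h y hy hxy

/-- an even set is a disjoint union of circuits -/
lemma even_part {W : Type} [AddCommGroup W] [Module (ZMod 2) W] (x : E → W) : ∀ (n : ℕ) (F : Finset E),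
    F.card = n → Ev x F → ∃ P : Finset (Finset E), (∀ C ∈ P, Circ x C ∧ C ⊆ F) ∧
      ∀ e ∈ F, ∃ C ∈ P, e ∈ C ∧ ∀ C' ∈ P, e ∈ C' → C' = C := by
  classical
  intro n
  induction n using Nat.strong_induction_on with
  | _ n ih =>
    intro F hF hev
    rcases F.eq_empty_or_nonempty with rfl | hne
    · exact ⟨∅, by simp, by simp⟩
    · obtain ⟨C, hC, hCc⟩ := exists_circ x _ F rfl hne hev
      have hlt : (F \ C).card < F.card := by
        apply card_lt_card
        refine ⟨sdiff_subset, fun h => ?_⟩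
        obtain ⟨e, he⟩ := hCc.1
        exact (mem_sdiff.1 (h (hC he))).2 he
      have hev' : Ev x (F \ C) := by
        have h1 : ∑ e ∈ F \ C, x e + ∑ e ∈ C, x e = ∑ e ∈ F, x e := sum_sdiff hC
        have h2 : ∑ e ∈ C, x e = 0 := hCc.2.1
        have h3 : ∑ e ∈ F, x e = 0 := hev
        rw [h2, h3, add_zero] at h1
        exact h1
      obtain ⟨P, hP1, hP2⟩ := ih _ (by omega) (F \ C) rfl hev'
      refine ⟨insert C P, ?_, ?_⟩
      · intro D hD
        rcases mem_insert.1 hD with rfl | h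
        · exact ⟨hCc, hC⟩
        · exact ⟨(hP1 D h).1, (hP1 D h).2.trans sdiff_subset⟩
      · intro e he
        by_cases h1 : e ∈ C
        · refine ⟨C, mem_insert_self _ _, h1, ?_⟩
          intro C' hC' he'
          rcases mem_insert.1 hC' with h2 | h2
          · exact h2
          · exact absurd h1 (mem_sdiff.1 ((hP1 C' h2).2 he')).2
        · obtain ⟨C', hC', h2, h3⟩ := hP2 e (mem_sdiff.2 ⟨he, h1⟩)
          refine ⟨C', mem_insert_of_mem hC', h2, ?_⟩
          intro C'' hC'' he''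
          rcases mem_insert.1 hC'' with h4 | h4
          · exact absurd (h4 ▸ he'') h1
          · exact h3 C'' h4 he''

/-- the main theorem for vectors: a partition into circuits avoiding the conflicts -/
theorem main {W : Type} [AddCommGroup W] [Module (ZMod 2) W] [Module.Finite (ZMod 2) W] (x : E → W)
    (hx : Ev x univ) (n : ℕ) (Γ : ℕ → E → E → Prop) (hs : ∀ i x y, Γ i x y → Γ i y x)
    (hir : ∀ i x, ¬ Γ i x x) (hd : ∀ i e, ∃ a b, ∀ y, Γ i e y → y = a ∨ y = b)
    (h : St (vr x) (6 ^ n * (2 * n + 1)) ((vr x).r univ) univ) :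
    ∃ P : Finset (Finset E), (∀ C ∈ P, Circ x C) ∧ (∀ e, ∃ C ∈ P, e ∈ C ∧ ∀ C' ∈ P, e ∈ C' → C' = C) ∧
      ∀ C ∈ P, ∀ e ∈ C, ∀ f ∈ C, ∀ i < n, ¬ Γ i e f := by
  classical
  set s := 2 * n + 1 with hsdef
  set R := vr x with hR
  set ρ := R.r univ with hρ
  obtain ⟨D, _, hD1, hD2⟩ := indep_all R Γ hs hir (by
    intro i e y₁ y₂ y₃ h1 h2 h3
    obtain ⟨a, b, hab⟩ := hd i e
    rcases hab _ h1 with h1 | h1 <;> rcases hab _ h2 with h2 | h2 <;> rcases hab _ h3 with h3 | h3 <;>
      simp [h1, h2, h3]) s ρ n univ h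
  obtain ⟨T, hT1, hT2⟩ := bases R s ρ D hD1 (fun X => R.mono (subset_univ X))
  -- the conflict relation
  set G : E → E → Prop := fun e f => ∃ i < n, Γ i e f with hG
  have hGs : ∀ e f, G e f → G f e := fun e f ⟨i, hi, h⟩ => ⟨i, hi, hs _ _ _ h⟩
  have hGi : ∀ e, ¬ G e e := fun e ⟨i, _, h⟩ => hir _ _ h
  choose a b hab using hd
  have hGd : ∀ e, ∃ N : Finset E, N.card + 1 ≤ s ∧ ∀ y, G e y → y ∈ N := by
    intro e
    refine ⟨(range n).biUnion (fun i => {a i e, b i e}), ?_, ?_⟩
    · have h1 : ((range n).biUnion (fun i => ({a i e, b i e} : Finset E))).card ≤ n * 2 := by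
        refine card_biUnion_le.trans ?_
        refine (sum_le_card_nsmul _ _ 2 (fun j _ => card_le_two)).trans ?_
        rw [card_range, smul_eq_mul]
      omega
    · rintro y ⟨i, hi, hy⟩
      rw [mem_biUnion]
      refine ⟨i, mem_range.2 hi, ?_⟩
      rw [mem_insert, mem_singleton]
      exact hab i e y hy
  -- the trees and their colours
  set R' : Finset E := (range s).biUnion T with hR'
  have hR'm : ∀ e, e ∈ R' ↔ ∃ j < s, e ∈ T j := by
    intro e
    rw [hR', mem_biUnion]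
    simp [mem_range]
  have hR'i : ∀ e ∈ R', ∀ f ∈ R', ¬ G e f := by
    rintro e he f hf ⟨i, hi, h1⟩
    obtain ⟨j, hj, h2⟩ := (hR'm e).1 he
    obtain ⟨k, hk, h3⟩ := (hR'm f).1 hf
    exact hD2 i hi e ((hT1 j hj).1 h2) f ((hT1 k hk).1 h3) h1
  have hφ₀ : ∀ e, ∃ j, e ∈ R' → j < s ∧ e ∈ T j := by
    intro e
    by_cases he : e ∈ R'
    · obtain ⟨j, hj, h1⟩ := (hR'm e).1 he
      exact ⟨j, fun _ => ⟨hj, h1⟩⟩
    · exact ⟨0, fun h => absurd h he⟩
  choose φ₀ hφ₀ using hφ₀
  obtain ⟨φ, hφ1, hφ2, hφ3, hφ4⟩ := greedy G hGs hGi s hGd R' hR'i φ₀ (fun e he => (hφ₀ e he).1) (univ \ R')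
    (sdiff_disjoint)
  have hun : ∀ e, e ∈ univ \ R' ∪ R' := fun e => by
    rw [mem_union, mem_sdiff]; by_cases h : e ∈ R'
    · exact Or.inr h
    · exact Or.inl ⟨mem_univ _, h⟩
  have hφT : ∀ j < s, ∀ e ∈ T j, φ e = j := by
    intro j hj e he
    have h1 : e ∈ R' := (hR'm e).2 ⟨j, hj, he⟩
    rw [hφ1 e h1]
    by_contra hne
    exact (Finset.disjoint_left.1 (hT2 _ _ hne)) (hφ₀ e h1).2 he
  -- the joins
  have hJ : ∀ j, ∃ J : Finset E, j < s → J ⊆ T j ∧
      ∑ e ∈ J, x e = ∑ e ∈ univ.filter (fun e => φ e = j), x e := by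
    intro j
    by_cases hj : j < s
    · have h1 : sp x (T j) = sp x univ :=
        sp_eq_of_rank x (subset_univ _) (le_of_eq (hT1 j hj).2.symm)
      obtain ⟨J, hJ1, hJ2⟩ := exists_sub x (T j) (∑ e ∈ univ.filter (fun e => φ e = j), x e) (by
        rw [h1]; exact sum_mem_sp x (subset_univ _))
      exact ⟨J, fun _ => ⟨hJ1, hJ2⟩⟩
    · exact ⟨∅, fun h => absurd h hj⟩
  choose J hJ using hJ
  set ψ : E → ℕ := fun e => if φ e < s ∧ e ∈ J (φ e) then s else φ e with hψ
  have hψR : ∀ e, e ∉ R' → ψ e = φ e := by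
    intro e he
    simp only [hψ]
    rw [if_neg]
    rintro ⟨h1, h2⟩
    exact he ((hR'm e).2 ⟨φ e, h1, (hJ _ h1).1 h2⟩)
  have hψR2 : ∀ e, e ∈ R' → ψ e = φ e ∨ ψ e = s := by
    intro e _
    simp only [hψ]
    split_ifs
    · exact Or.inr rfl
    · exact Or.inl rfl
  have hφlt : ∀ e, φ e < s + 1 := by
    intro e
    by_cases he : e ∈ R'
    · rw [hφ1 e he]; have := (hφ₀ e he).1; omega
    · exact hφ2 e (mem_sdiff.2 ⟨mem_univ _, he⟩)
  have hψlt : ∀ e, ψ e < s + 1 := by
    intro e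
    by_cases he : e ∈ R'
    · rcases hψR2 e he with h1 | h1
      · rw [h1]; exact hφlt e
      · omega
    · rw [hψR e he]; exact hφlt e
  have hψp : ∀ e f, G e f → ψ e ≠ ψ f := by
    intro e f hef
    by_cases he : e ∈ R'
    · by_cases hf : f ∈ R'
      · exact absurd hef (hR'i e he f hf)
      · rw [hψR f hf]
        have h1 := hφ3 e (hun e) f (hun f) hef
        have h2 := hφ4 f (mem_sdiff.2 ⟨mem_univ _, hf⟩) e he (hGs _ _ hef)
        rcases hψR2 e he with h3 | h3
        · rw [h3]; exact h1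
        · rw [h3]; exact h2.symm
    · by_cases hf : f ∈ R'
      · rw [hψR e he]
        have h1 := hφ3 e (hun e) f (hun f) hef
        have h2 := hφ4 e (mem_sdiff.2 ⟨mem_univ _, he⟩) f hf hef
        rcases hψR2 f hf with h3 | h3
        · rw [h3]; exact h1
        · rw [h3]; exact h2
      · rw [hψR e he, hψR f hf]
        exact hφ3 e (hun e) f (hun f) hef
  -- the classes are even
  set K : ℕ → Finset E := fun c => univ.filter (fun e => ψ e = c) with hK
  have hKe : ∀ c < s, Ev x (K c) := by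
    intro c hc
    have h1 : K c = (univ.filter (fun e => φ e = c)) \ J c := by
      ext e
      rw [hK, mem_filter, mem_sdiff, mem_filter]
      simp only [hψ, mem_univ, true_and]
      constructor
      · intro h2
        split_ifs at h2 with h3
        · omega
        · refine ⟨h2, fun h4 => h3 ⟨by rw [h2]; exact hc, by rw [h2]; exact h4⟩⟩
      · rintro ⟨h2, h3⟩
        rw [if_neg]
        · exact h2
        · rintro ⟨_, h5⟩
          rw [h2] at h5; exact h3 h5
    have h2 : J c ⊆ univ.filter (fun e => φ e = c) := by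
      intro e he
      rw [mem_filter]
      exact ⟨mem_univ _, hφT c hc e ((hJ c hc).1 he)⟩
    have h3 := sum_sdiff (f := x) h2
    rw [(hJ c hc).2] at h3
    rw [h1]
    unfold Ev
    simpa using h3
  have hKs : Ev x (K s) := by
    have h1 : ∑ e : E, x e = ∑ c ∈ range (s + 1), ∑ e ∈ K c, x e := by
      rw [hK]
      rw [← sum_fiberwise_of_maps_to (s := (univ : Finset E)) (t := range (s + 1)) (g := ψ)
        (fun e _ => mem_range.2 (hψlt e))]
    rw [sum_range_succ, sum_eq_zero (fun c hc => hKe c (mem_range.1 hc)), zero_add] at h1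
    unfold Ev
    rw [← h1]; exact hx
  have hKall : ∀ c < s + 1, Ev x (K c) := by
    intro c hc
    rcases Nat.lt_succ_iff_lt_or_eq.1 hc with h1 | h1
    · exact hKe c h1
    · rw [h1]; exact hKs
  have hpart : ∀ c, ∃ P : Finset (Finset E), c < s + 1 → (∀ C ∈ P, Circ x C ∧ C ⊆ K c) ∧
      ∀ e ∈ K c, ∃ C ∈ P, e ∈ C ∧ ∀ C' ∈ P, e ∈ C' → C' = C := by
    intro c
    by_cases hc : c < s + 1
    · obtain ⟨P, hP⟩ := even_part x _ (K c) rfl (hKall c hc)
      exact ⟨P, fun _ => hP⟩
    · exact ⟨∅, fun h => absurd h hc⟩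
  choose P hP using hpart
  have hKm : ∀ c e, e ∈ K c ↔ ψ e = c := by
    intro c e
    rw [hK, mem_filter]; simp
  refine ⟨(range (s + 1)).biUnion P, ?_, ?_, ?_⟩
  · intro C hC
    obtain ⟨c, hc, hC'⟩ := mem_biUnion.1 hC
    exact ((hP c (mem_range.1 hc)).1 C hC').1
  · intro e
    have hc := hψlt e
    obtain ⟨C, hC, h1, h2⟩ := (hP (ψ e) hc).2 e ((hKm _ _).2 rfl)
    refine ⟨C, mem_biUnion.2 ⟨ψ e, mem_range.2 hc, hC⟩, h1, ?_⟩
    intro C' hC' he'
    obtain ⟨c', hc', hC''⟩ := mem_biUnion.1 hC'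
    have h3 : ψ e = c' := (hKm _ _).1 (((hP c' (mem_range.1 hc')).1 C' hC'').2 he')
    rw [← h3] at hC''
    exact h2 C' hC'' he'
  · intro C hC e he f hf i hi hΓ
    obtain ⟨c, hc, hC'⟩ := mem_biUnion.1 hC
    have h1 := (hKm _ _).1 (((hP c (mem_range.1 hc)).1 C hC').2 he)
    have h2 := (hKm _ _).1 (((hP c (mem_range.1 hc)).1 C hC').2 hf)
    exact hψp e f ⟨i, hi, hΓ⟩ (h1.trans h2.symm)

end Pool.Agent.Helper97.CD
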