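import Pool.Agent.Helper97.CD.Colour

/-!
Circuits have degree at most 2; strength from cuts or from disjoint connected spanning subgraphs.
-/

set_option autoImplicit false
set_option linter.unusedSectionVars false

namespace Pool.Agent.Helper97.CD

open Finset Pool.Agent.Helper55.Rota Pool.Agent.Helper97.CC

section vec

variable {E : Type} [Fintype E] [DecidableEq E] {W : Type} [AddCommGroup W] [Module (ZMod 2) W]
  [Module.Finite (ZMod 2) W]

/-- a set without nonempty even subsets is independent -/
lemma card_le_rank (x : E → W) (F : Finset E) (h : ∀ D ⊆ F, D.Nonempty → ¬ Ev x D) : F.card ≤ (vr x).r F := by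
  classical
  induction F using Finset.induction_on with
  | empty => simp
  | insert a F ha ih =>
    have h1 := ih (fun D hD => h D (hD.trans (subset_insert _ _)))
    have h2 : sp x F < sp x (insert a F) := by
      refine lt_of_le_of_ne (sp_mono x (subset_insert _ _)) ?_
      intro heq
      have h3 : x a ∈ sp x F := by rw [heq]; exact mem_sp x (mem_insert_self _ _)
      obtain ⟨K, hK, hK2⟩ := exists_sub x F (x a) h3
      have haK : a ∉ K := fun h => ha (hK h)
      apply h (insert a K) (insert_subset_insert _ hK) ⟨a, mem_insert_self _ _⟩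
      unfold Ev
      rw [sum_insert haK, hK2]
      exact add_self' _
    have h3 : (vr x).r F < (vr x).r (insert a F) := Submodule.finrank_lt_finrank_of_lt h2
    rw [card_insert_of_notMem ha]
    omega

/-- a circuit has rank one less than its size -/
lemma circ_rank (x : E → W) (C : Finset E) (hC : Circ x C) : C.card ≤ (vr x).r C + 1 := by
  obtain ⟨⟨e, he⟩, _, hmin⟩ := hC
  have h1 := card_le_rank x (C.erase e) (by
    intro D hD hne hev
    have h2 := hmin D (hD.trans (erase_subset _ _)) hne hev
    rw [h2] at hD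
    exact (mem_erase.1 (hD he)).1 rfl)
  have h2 := (vr x).mono (erase_subset e C)
  have h3 := card_erase_add_one he
  omega

end vec

section graph

variable {V E : Type} [Fintype V] [DecidableEq V] [Fintype E] [DecidableEq E]

/-- the degree of a vertex in a set of edges -/
def dg (s t : E → V) (C : Finset E) (v : V) : ℕ := (C.filter (fun e => s e = v ∨ t e = v)).card

lemma ev_iff (s t : E → V) (hl : ∀ e, s e ≠ t e) (C : Finset E) :
    Ev (inc s t) C ↔ ∀ v, Even (dg s t C v) := by
  have h1 : Ev (inc s t) C ↔ par (inc s t) (ind C) = 0 := by rw [par_ind]; rfl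
  rw [h1, par_iff]
  apply forall_congr'
  intro v
  have h2 : (∑ e, ind C e * ((if s e = v then 1 else 0) + (if t e = v then 1 else 0))) = dg s t C v := by
    unfold dg
    rw [card_filter, ← sum_subset (subset_univ C)]
    · apply sum_congr rfl
      intro e he
      have := hl e
      by_cases h3 : s e = v <;> by_cases h4 : t e = v <;> simp [ind, he, h3, h4]
      exact this (h3.trans h4.symm)
    · intro e _ he
      simp [ind, he]
  rw [h2]

/-- every vertex has degree at most 2 in a circuit -/
lemma circ_deg (s t : E → V) (hl : ∀ e, s e ≠ t e) (C : Finset E) (hC : Circ (inc s t) C) (v : V) :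
    dg s t C v ≤ 2 := by
  classical
  set X : Finset V := univ.filter (fun v => ∃ e ∈ C, s e = v ∨ t e = v) with hX
  have hmem : ∀ e ∈ C, s e ∈ X ∧ t e ∈ X := by
    intro e he
    rw [hX, mem_filter, mem_filter]
    exact ⟨⟨mem_univ _, e, he, Or.inl rfl⟩, ⟨mem_univ _, e, he, Or.inr rfl⟩⟩
  have hne : X.Nonempty := by
    obtain ⟨e, he⟩ := hC.1
    exact ⟨s e, (hmem e he).1⟩
  have hdeg : ∀ u ∈ X, 2 ≤ dg s t C u := by
    intro u hu
    have h1 := (ev_iff s t hl C).1 hC.2.1 u
    have h2 : 0 < dg s t C u := by
      rw [hX, mem_filter] at hu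
      obtain ⟨_, e, he, h⟩ := hu
      exact card_pos.2 ⟨e, mem_filter.2 ⟨he, h⟩⟩
    obtain ⟨k, hk⟩ := h1
    omega
  have hsum : ∑ u ∈ X, dg s t C u = 2 * C.card := by
    unfold dg
    simp only [card_filter]
    rw [sum_comm]
    have h1 : ∀ e ∈ C, ∑ u ∈ X, (if s e = u ∨ t e = u then 1 else 0) = 2 := by
      intro e he
      have h2 : ∑ u ∈ X, (if s e = u ∨ t e = u then 1 else 0)
          = ∑ u ∈ X, ((if s e = u then 1 else 0) + (if t e = u then 1 else 0)) := by
        apply sum_congr rfl
        intro u _
        have := hl e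
        by_cases h3 : s e = u <;> by_cases h4 : t e = u <;> simp [h3, h4]
        exact this (h3.trans h4.symm)
      rw [h2, sum_add_distrib, sum_ite_eq, sum_ite_eq, if_pos (hmem e he).1, if_pos (hmem e he).2]
    rw [sum_congr rfl h1, sum_const, smul_eq_mul, mul_comm]
  -- the rank of C
  set c : V → ℕ := fun u => (Fintype.equivFin V u).val with hc
  have hcinj : ∀ u w, c u = c w → u = w := by
    intro u w h
    exact (Fintype.equivFin V).injective (Fin.val_injective h)
  have h1 := rank_le s t X ∅ c (by
    intro u w huw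
    rw [hcinj u w huw, add_self' (Pi.single w 1 : V → ZMod 2)]
    exact Submodule.zero_mem _) hne
  have h2 : (X.image c).card = X.card := card_image_of_injective _ (fun u w h => hcinj u w h)
  have h3 : (vr (inc s t)).r C ≤ (vr (inc s t)).r (univ.filter (fun f => s f ∈ X ∧ t f ∈ X)) := by
    apply (vr (inc s t)).mono
    intro e he
    rw [mem_filter]
    exact ⟨mem_univ _, hmem e he⟩
  have h4 := circ_rank (inc s t) C hC
  rw [(vr (inc s t)).empty, h2] at h1
  have hXp : 0 < X.card := card_pos.2 hne
  by_cases hv : v ∈ X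
  · have h5 : ∑ u ∈ X, dg s t C u = ∑ u ∈ X.erase v, dg s t C u + dg s t C v :=
      (sum_erase_add _ _ hv).symm
    have h6 : (X.erase v).card * 2 ≤ ∑ u ∈ X.erase v, dg s t C u := by
      have := card_nsmul_le_sum (X.erase v) (fun u => dg s t C u) 2 (fun u hu => hdeg u (mem_of_mem_erase hu))
      simpa using this
    have h7 := card_erase_add_one hv
    omega
  · have h5 : dg s t C v = 0 := by
      unfold dg
      rw [card_eq_zero, filter_eq_empty_iff]
      intro e he h
      exact hv (by rw [hX, mem_filter]; exact ⟨mem_univ _, e, he, h⟩)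
    omega

/-- partitions to strength -/
lemma st_of_part [Nonempty V] (s t : E → V) (m : ℕ)
    (h : ∀ c : V → ℕ, m * ((univ.image c).card - 1) ≤ (univ.filter (fun f => c (s f) ≠ c (t f))).card) :
    St (vr (inc s t)) m ((vr (inc s t)).r univ) univ := by
  classical
  intro F _
  obtain ⟨c, hc1, hc2⟩ := labels s t F
  have h1 := rank_le s t univ F c hc2 univ_nonempty
  have e1 : (univ.filter (fun f => s f ∈ (univ : Finset V) ∧ t f ∈ (univ : Finset V))) = (univ : Finset E) := by
    ext f; simp
  rw [e1] at h1
  have h2 := h c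
  have h3 : (univ.filter (fun f => c (s f) ≠ c (t f))).card ≤ ((univ : Finset E) \ F).card := by
    apply card_le_card
    intro f hf
    rw [mem_filter] at hf
    rw [mem_sdiff]
    exact ⟨mem_univ _, fun hfF => hf.2 (hc1 f hfF)⟩
  have h4 := Nat.mul_le_mul_left m h1
  rw [Nat.mul_add] at h4
  omega

/-- cuts to partitions -/
lemma part_of_cut (s t : E → V) (m : ℕ)
    (h : ∀ X : Finset V, X.Nonempty → X ≠ univ →
      2 * m ≤ (univ.filter (fun f => ¬ (s f ∈ X ↔ t f ∈ X))).card) (c : V → ℕ) :
    m * ((univ.image c).card - 1) ≤ (univ.filter (fun f => c (s f) ≠ c (t f))).card := by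
  classical
  by_cases hk : (univ.image c).card ≤ 1
  · rw [Nat.sub_eq_zero_of_le hk]; simp
  push Not at hk
  have h1 : ∀ q ∈ univ.image c, 2 * m ≤
      (univ.filter (fun f => ¬ (c (s f) = q ↔ c (t f) = q))).card := by
    intro q hq
    obtain ⟨v, _, hv⟩ := mem_image.1 hq
    have h2 := h (univ.filter (fun u => c u = q)) ⟨v, mem_filter.2 ⟨mem_univ _, hv⟩⟩ (by
      intro heq
      obtain ⟨a, ha, b, hb, hab⟩ := one_lt_card.1 hk
      obtain ⟨u, _, hu⟩ := mem_image.1 ha
      obtain ⟨w, _, hw⟩ := mem_image.1 hb
      have hu2 : u ∈ univ.filter (fun u => c u = q) := by rw [heq]; exact mem_univ _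
      have hw2 : w ∈ univ.filter (fun u => c u = q) := by rw [heq]; exact mem_univ _
      rw [mem_filter] at hu2 hw2
      exact hab (by rw [← hu, ← hw, hu2.2, hw2.2]))
    simpa using h2
  have h2 : (univ.image c).card * (2 * m) ≤ ∑ q ∈ univ.image c,
      (univ.filter (fun f => ¬ (c (s f) = q ↔ c (t f) = q))).card := by
    have := card_nsmul_le_sum (univ.image c)
      (fun q => (univ.filter (fun f => ¬ (c (s f) = q ↔ c (t f) = q))).card) (2 * m) h1
    simpa using this
  have h3 : ∑ q ∈ univ.image c, (univ.filter (fun f => ¬ (c (s f) = q ↔ c (t f) = q))).card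
      = 2 * (univ.filter (fun f => c (s f) ≠ c (t f))).card := by
    simp only [card_filter]
    rw [sum_comm, mul_sum]
    apply sum_congr rfl
    intro f _
    by_cases hf : c (s f) = c (t f)
    · simp [hf]
    · have e1 : ∀ q, (if ¬ (c (s f) = q ↔ c (t f) = q) then 1 else 0)
          = (if c (s f) = q then 1 else 0) + (if c (t f) = q then 1 else 0) := by
        intro q
        by_cases h3 : c (s f) = q <;> by_cases h4 : c (t f) = q <;> simp [h3, h4]
        exact hf (h3.trans h4.symm)
      simp only [e1]
      rw [sum_add_distrib, sum_ite_eq, sum_ite_eq, if_pos (mem_image_of_mem c (mem_univ _)),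
        if_pos (mem_image_of_mem c (mem_univ _)), if_pos hf]
      norm_num
  rw [h3] at h2
  have h4 : (univ.image c).card * (2 * m) = 2 * (m * (univ.image c).card) := by ring
  rw [h4] at h2
  have h5 : m * ((univ.image c).card - 1) ≤ m * (univ.image c).card := Nat.mul_le_mul_left _ (by omega)
  omega

/-- disjoint sets of full rank to strength -/
lemma st_of_trees (s t : E → V) (m : ℕ) (T : Fin m → Finset E) (hd : ∀ i j, i ≠ j → Disjoint (T i) (T j))
    (hT : ∀ i, ∀ u v : V, (Pi.single u 1 + Pi.single v 1 : V → ZMod 2) ∈ sp (inc s t) (T i)) :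
    St (vr (inc s t)) m ((vr (inc s t)).r univ) univ := by
  classical
  intro F _
  set R := vr (inc s t) with hR
  have h1 : ∀ i, R.r univ ≤ R.r F + (T i \ F).card := by
    intro i
    have h2 : sp (inc s t) univ ≤ sp (inc s t) (T i) := by
      unfold sp
      rw [Submodule.span_le]
      rintro _ ⟨e, _, rfl⟩
      exact hT i (s e) (t e)
    have h3 : R.r univ ≤ R.r (T i) := Submodule.finrank_mono h2
    have h4 : R.r (T i) ≤ R.r (F ∪ (T i \ F)) := R.mono (by
      intro e he; rw [mem_union, mem_sdiff]; tauto)
    have h5 := R.union_le F (T i \ F)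
    have h6 := R.le_card (T i \ F)
    omega
  have h2 : ∑ i : Fin m, (T i \ F).card ≤ (univ \ F).card := by
    rw [← card_biUnion]
    · apply card_le_card
      intro e he
      obtain ⟨i, _, h3⟩ := mem_biUnion.1 he
      rw [mem_sdiff] at h3 ⊢
      exact ⟨mem_univ _, h3.2⟩
    · intro i _ j _ hij
      exact (hd i j hij).mono sdiff_subset sdiff_subset
  have h3 : m * R.r univ ≤ m * R.r F + ∑ i : Fin m, (T i \ F).card := by
    have h4 : ∑ _i : Fin m, R.r univ ≤ ∑ i : Fin m, (R.r F + (T i \ F).card) := sum_le_sum (fun i _ => h1 i)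
    rw [sum_add_distrib, sum_const, sum_const] at h4
    simpa using h4
  omega

lemma St.mono {α : Type} [DecidableEq α] {R : RankFn α} {s s' ρ : ℕ} {D : Finset α} (h : St R s ρ D)
    (hs : s' ≤ s) (hρ : ∀ F ⊆ D, R.r F ≤ ρ) : St R s' ρ D := by
  intro F hF
  have h1 := h F hF
  have h2 := hρ F hF
  obtain ⟨k, rfl⟩ := Nat.exists_eq_add_of_le hs
  obtain ⟨l, hl⟩ := Nat.exists_eq_add_of_le h2
  rw [hl] at h1 ⊢
  have e1 : (s' + k) * (R.r F + l) = s' * R.r F + s' * l + k * R.r F + k * l := by ring
  have e2 : (s' + k) * R.r F = s' * R.r F + k * R.r F := by ring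
  have e3 : s' * (R.r F + l) = s' * R.r F + s' * l := by ring
  rw [e1, e2] at h1
  rw [e3]
  omega

end graph

end Pool.Agent.Helper97.CD
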