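import Pool.Agent.Helper97.CD.KRank

/-!
Thinning a strong set to an independent set of a graph of maximum degree 2: a factor of 6.
-/

set_option autoImplicit false
set_option linter.unusedSectionVars false

namespace Pool.Agent.Helper97.CD

open Finset Pool.Agent.Helper55.Rota Pool.Agent.Helper97.CC

variable {E : Type} [Fintype E] [DecidableEq E]

/-- a maximal matching, as an involution -/
lemma max_inv (Γ : E → E → Prop) (hs : ∀ x y, Γ x y → Γ y x) (D : Finset E) :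
    ∃ m : Equiv.Perm E, (∀ x, m (m x) = x) ∧ (∀ x, m x ≠ x → Γ x (m x) ∧ x ∈ D) ∧
      ∀ x ∈ D, ∀ y ∈ D, x ≠ y → Γ x y → m x ≠ x ∨ m y ≠ y := by
  classical
  set P : Finset (Equiv.Perm E) := univ.filter (fun m => (∀ x, m (m x) = x) ∧
    (∀ x, m x ≠ x → Γ x (m x) ∧ x ∈ D)) with hP
  have hne : P.Nonempty := ⟨1, by rw [hP, mem_filter]; exact ⟨mem_univ _, fun x => rfl, fun x h => absurd rfl h⟩⟩
  obtain ⟨m, hm, hmax⟩ := exists_max_image P (fun m => (univ.filter (fun x => m x ≠ x)).card) hne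
  rw [hP, mem_filter] at hm
  obtain ⟨_, hm1, hm2⟩ := hm
  refine ⟨m, hm1, hm2, ?_⟩
  intro x hx y hy hxy hΓ
  by_contra hcon
  push Not at hcon
  obtain ⟨h1, h2⟩ := hcon
  set m' : Equiv.Perm E := Equiv.swap x y * m with hm'
  have hx' : m' x = y := by rw [hm', Equiv.Perm.mul_apply, h1, Equiv.swap_apply_left]
  have hy' : m' y = x := by rw [hm', Equiv.Perm.mul_apply, h2, Equiv.swap_apply_right]
  have ho : ∀ z, z ≠ x → z ≠ y → m' z = m z := by
    intro z hz1 hz2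
    rw [hm', Equiv.Perm.mul_apply]
    apply Equiv.swap_apply_of_ne_of_ne
    · intro h; apply hz1; have := hm1 z; rw [h, h1] at this; exact this.symm
    · intro h; apply hz2; have := hm1 z; rw [h, h2] at this; exact this.symm
  have hmem : m' ∈ P := by
    rw [hP, mem_filter]
    refine ⟨mem_univ _, ?_, ?_⟩
    · intro z
      by_cases hz1 : z = x
      · rw [hz1, hx', hy']
      by_cases hz2 : z = y
      · rw [hz2, hy', hx']
      rw [ho z hz1 hz2, ho (m z), hm1]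
      · intro h; apply hz1; have := hm1 z; rw [h, h1] at this; exact this.symm
      · intro h; apply hz2; have := hm1 z; rw [h, h2] at this; exact this.symm
    · intro z hz
      by_cases hz1 : z = x
      · rw [hz1, hx']; exact ⟨hΓ, hx⟩
      by_cases hz2 : z = y
      · rw [hz2, hy']; exact ⟨hs _ _ hΓ, hy⟩
      rw [ho z hz1 hz2] at hz ⊢
      exact hm2 z hz
  have h3 := hmax m' hmem
  have h4 : univ.filter (fun z => m z ≠ z) ⊂ univ.filter (fun z => m' z ≠ z) := by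
    rw [Finset.ssubset_iff_of_subset]
    · refine ⟨x, ?_, ?_⟩
      · rw [mem_filter, hx']; exact ⟨mem_univ _, hxy.symm⟩
      · rw [mem_filter]; intro h; exact h.2 h1
    · intro z hz
      rw [mem_filter] at hz ⊢
      refine ⟨mem_univ _, ?_⟩
      have hz1 : z ≠ x := fun h => hz.2 (by rw [h, h1])
      have hz2 : z ≠ y := fun h => hz.2 (by rw [h, h2])
      rw [ho z hz1 hz2]; exact hz.2
  have h5 := card_lt_card h4
  omega

/-- first step: afterwards of any two adjacent elements one has only this neighbour -/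
lemma step_one (R : RankFn E) (Γ : E → E → Prop) (hs : ∀ x y, Γ x y → Γ y x) (hir : ∀ x, ¬ Γ x x)
    (hd : ∀ x y₁ y₂ y₃, Γ x y₁ → Γ x y₂ → Γ x y₃ → y₁ = y₂ ∨ y₁ = y₃ ∨ y₂ = y₃) (s ρ : ℕ) (D : Finset E)
    (h : St R (2 * s) ρ D) :
    ∃ D' ⊆ D, St R s ρ D' ∧ ∀ x ∈ D', ∀ y ∈ D', Γ x y →
      (∀ z ∈ D', Γ x z → z = y) ∨ (∀ z ∈ D', Γ y z → z = x) := by
  classical
  obtain ⟨m, hm1, hm2, hm3⟩ := max_inv Γ hs D
  obtain ⟨D', hD', hinj, hst⟩ := thin R s ρ 2 (by norm_num) D h (fun x => ({x, m x} : Finset E)) (by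
    intro x _
    refine (card_le_card (t := {x, m x}) ?_).trans (card_le_two)
    intro y hy
    rw [mem_filter] at hy
    have : y ∈ ({y, m y} : Finset E) := mem_insert_self _ _
    rw [hy.2] at this
    exact this)
  refine ⟨D', hD', hst, ?_⟩
  have hmate : ∀ x ∈ D', m x ≠ x → m x ∉ D' := by
    intro x hx hne hmx
    apply hne
    apply (hinj x hx (m x) hmx _).symm
    rw [hm1]
    exact Finset.pair_comm _ _
  have hmat : ∀ x ∈ D', ∀ y ∈ D', Γ x y → m x ≠ x → ∀ z ∈ D', Γ x z → z = y := by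
    intro x hx y hy hxy hmx z hz hxz
    rcases hd x (m x) y z (hm2 x hmx).1 hxy hxz with h1 | h1 | h1
    · exact absurd (h1 ▸ hy) (hmate x hx hmx)
    · exact absurd (h1 ▸ hz) (hmate x hx hmx)
    · exact h1.symm
  intro x hx y hy hxy
  have hne : x ≠ y := fun h => hir x (by rw [← h] at hxy; exact hxy)
  rcases hm3 x (hD' hx) y (hD' hy) hne hxy with h1 | h1
  · exact Or.inl (hmat x hx y hy hxy h1)
  · exact Or.inr (hmat y hy x hx (hs _ _ hxy) h1)

/-- the component of an element, when components are small -/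
noncomputable def comp (Γ : E → E → Prop) (D : Finset E) (x : E) : Finset E := by
  classical
  exact D.filter (fun z => z = x ∨ Γ x z ∨ ∃ w ∈ D, Γ x w ∧ Γ w z)

lemma mem_comp {Γ : E → E → Prop} {D : Finset E} {x z : E} :
    z ∈ comp Γ D x ↔ z ∈ D ∧ (z = x ∨ Γ x z ∨ ∃ w ∈ D, Γ x w ∧ Γ w z) := by
  classical
  unfold comp
  rw [mem_filter]

/-- second step -/
lemma step_two (R : RankFn E) (Γ : E → E → Prop) (hs : ∀ x y, Γ x y → Γ y x)
    (hd : ∀ x y₁ y₂ y₃, Γ x y₁ → Γ x y₂ → Γ x y₃ → y₁ = y₂ ∨ y₁ = y₃ ∨ y₂ = y₃) (hir : ∀ x, ¬ Γ x x)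
    (s ρ : ℕ) (D : Finset E)
    (h : St R (3 * s) ρ D) (hP : ∀ x ∈ D, ∀ y ∈ D, Γ x y →
      (∀ z ∈ D, Γ x z → z = y) ∨ (∀ z ∈ D, Γ y z → z = x)) :
    ∃ D' ⊆ D, St R s ρ D' ∧ ∀ x ∈ D', ∀ y ∈ D', ¬ Γ x y := by
  classical
  -- adjacent elements have the same component
  have hone : ∀ x ∈ D, ∀ y ∈ D, Γ x y → (∀ z ∈ D, Γ x z → z = y) → comp Γ D x = comp Γ D y := by
    intro x hx y hy hxy hx1
    ext z
    rw [mem_comp, mem_comp]
    refine and_congr_right fun hz => ?_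
    constructor
    · rintro (h1 | h1 | ⟨w, hw, h1, h2⟩)
      · rw [h1]; exact Or.inr (Or.inl (hs _ _ hxy))
      · exact Or.inl (hx1 z hz h1)
      · rw [hx1 w hw h1] at h2
        exact Or.inr (Or.inl h2)
    · rintro (h1 | h1 | ⟨w, hw, h1, h2⟩)
      · rw [h1]; exact Or.inr (Or.inl hxy)
      · exact Or.inr (Or.inr ⟨y, hy, hxy, h1⟩)
      · by_cases hwx : w = x
        · rw [hwx] at h2
          exact Or.inr (Or.inl h2)
        · -- y has two neighbours x, w; so w has only y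
          rcases hP w hw y hy (hs _ _ h1) with h3 | h3
          · rw [h3 z hz h2]
            exact Or.inr (Or.inl hxy)
          · exact absurd (h3 x hx (hs _ _ hxy)) (fun h => hwx h.symm)
  have hcomp : ∀ x ∈ D, ∀ y ∈ D, Γ x y → comp Γ D x = comp Γ D y := by
    intro x hx y hy hxy
    rcases hP x hx y hy hxy with h1 | h1
    · exact hone x hx y hy hxy h1
    · exact (hone y hy x hx (hs _ _ hxy) h1).symm
  -- components have at most three elements
  have hcen : ∀ x ∈ D, (∀ y ∈ D, Γ x y → ∀ z ∈ D, Γ y z → z = x) → (comp Γ D x).card ≤ 3 := by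
    intro x hx hx1
    have h1 : comp Γ D x ⊆ insert x (D.filter (fun z => Γ x z)) := by
      intro z hz
      rw [mem_comp] at hz
      obtain ⟨hzD, h2 | h2 | ⟨w, hw, h2, h3⟩⟩ := hz
      · rw [h2]; exact mem_insert_self _ _
      · exact mem_insert_of_mem (mem_filter.2 ⟨hzD, h2⟩)
      · rw [hx1 w hw h2 z hzD h3]; exact mem_insert_self _ _
    have h2 : (D.filter (fun z => Γ x z)).card ≤ 2 := by
      by_contra hcon
      push Not at hcon
      obtain ⟨a, ha, b, hb, c, hc, hab, hac, hbc⟩ := two_lt_card.1 hcon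
      rw [mem_filter] at ha hb hc
      rcases hd x a b c ha.2 hb.2 hc.2 with h | h | h
      · exact hab h
      · exact hac h
      · exact hbc h
    have h3 := card_insert_le x (D.filter (fun z => Γ x z))
    have h4 := card_le_card h1
    omega
  have hsmall : ∀ x ∈ D, (comp Γ D x).card ≤ 3 := by
    intro x hx
    by_cases hx1 : ∀ y ∈ D, Γ x y → ∀ z ∈ D, Γ y z → z = x
    · exact hcen x hx hx1
    · push Not at hx1
      obtain ⟨y, hy, hxy, z, hz, hyz, hzx⟩ := hx1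
      rw [hcomp x hx y hy hxy]
      apply hcen y hy
      intro w hw hyw u hu hwu
      -- y has neighbours x ≠ z, so every neighbour of y has only y
      rcases hP w hw y hy (hs _ _ hyw) with h3 | h3
      · exact h3 u hu hwu
      · exact absurd ((h3 z hz hyz).trans (h3 x hx (hs _ _ hxy)).symm) hzx
  obtain ⟨D', hD', hinj, hst⟩ := thin R s ρ 3 (by norm_num) D h (comp Γ D) (by
    intro x hx
    refine (card_le_card ?_).trans (hsmall x hx)
    intro y hy
    rw [mem_filter] at hy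
    rw [← hy.2, mem_comp]
    exact ⟨hy.1, Or.inl rfl⟩)
  refine ⟨D', hD', hst, ?_⟩
  intro x hx y hy hxy
  have h1 := hcomp x (hD' hx) y (hD' hy) hxy
  have h2 := hinj x hx y hy h1
  rw [h2] at hxy
  exact hir y hxy

theorem indep6 (R : RankFn E) (Γ : E → E → Prop) (hs : ∀ x y, Γ x y → Γ y x) (hir : ∀ x, ¬ Γ x x)
    (hd : ∀ x y₁ y₂ y₃, Γ x y₁ → Γ x y₂ → Γ x y₃ → y₁ = y₂ ∨ y₁ = y₃ ∨ y₂ = y₃) (s ρ : ℕ) (D : Finset E)
    (h : St R (6 * s) ρ D) :
    ∃ D' ⊆ D, St R s ρ D' ∧ ∀ x ∈ D', ∀ y ∈ D', ¬ Γ x y := by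
  have h' : St R (2 * (3 * s)) ρ D := by
    have : 2 * (3 * s) = 6 * s := by ring
    rw [this]; exact h
  obtain ⟨D1, hD1, h1, h2⟩ := step_one R Γ hs hir hd (3 * s) ρ D h'
  obtain ⟨D2, hD2, h3, h4⟩ := step_two R Γ hs hd hir s ρ D1 h1 h2
  exact ⟨D2, hD2.trans hD1, h3, h4⟩

/-- several relations -/
theorem indep_all (R : RankFn E) (Γ : ℕ → E → E → Prop) (hs : ∀ i x y, Γ i x y → Γ i y x)
    (hir : ∀ i x, ¬ Γ i x x)
    (hd : ∀ i x y₁ y₂ y₃, Γ i x y₁ → Γ i x y₂ → Γ i x y₃ → y₁ = y₂ ∨ y₁ = y₃ ∨ y₂ = y₃) (s ρ : ℕ) :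
    ∀ (n : ℕ) (D : Finset E), St R (6 ^ n * s) ρ D →
    ∃ D' ⊆ D, St R s ρ D' ∧ ∀ i < n, ∀ x ∈ D', ∀ y ∈ D', ¬ Γ i x y := by
  intro n
  induction n with
  | zero =>
    intro D h
    refine ⟨D, Subset.refl _, ?_, fun i hi => absurd hi (by omega)⟩
    simpa using h
  | succ n ih =>
    intro D h
    have h' : St R (6 * (6 ^ n * s)) ρ D := by
      have : 6 * (6 ^ n * s) = 6 ^ (n + 1) * s := by ring
      rw [this]; exact h
    obtain ⟨D1, hD1, h1, h2⟩ := indep6 R (Γ n) (hs n) (hir n) (hd n) (6 ^ n * s) ρ D h'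
    obtain ⟨D2, hD2, h3, h4⟩ := ih D1 h1
    refine ⟨D2, hD2.trans hD1, h3, ?_⟩
    intro i hi x hx y hy
    rcases Nat.lt_succ_iff_lt_or_eq.1 hi with h5 | h5
    · exact h4 i h5 x hx y hy
    · rw [h5]; exact h2 x (hD2 hx) y (hD2 hy)

end Pool.Agent.Helper97.CD
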