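import Pool.Agent.Helper97.CC.Rank

/-!
The rank function of the union of `k` copies; thinning a strong set by groups; splitting a strong set into bases.
-/

set_option autoImplicit false
set_option linter.unusedSectionVars false

namespace Pool.Agent.Helper97.CD

open Finset Pool.Agent.Helper55.Rota Pool.Agent.Helper97.CC

variable {α : Type} [DecidableEq α]

/-- the value `min over B ⊆ F of k r(B) + |F - B|` -/
def kFn (k : ℕ) (R : RankFn α) (F : Finset α) : ℕ :=
  F.powerset.inf' ⟨∅, by simp⟩ (fun B => k * R.r B + (F \ B).card)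

lemma kFn_le (k : ℕ) (R : RankFn α) {F B : Finset α} (h : B ⊆ F) : kFn k R F ≤ k * R.r B + (F \ B).card :=
  inf'_le _ (mem_powerset.2 h)

lemma kFn_ex (k : ℕ) (R : RankFn α) (F : Finset α) : ∃ B ⊆ F, kFn k R F = k * R.r B + (F \ B).card := by
  obtain ⟨B, hB, h⟩ := exists_mem_eq_inf' (s := F.powerset) ⟨∅, by simp⟩
    (fun B => k * R.r B + (F \ B).card)
  exact ⟨B, mem_powerset.1 hB, h⟩

/-- the rank function of the union of `k` copies -/
def kRank (k : ℕ) (R : RankFn α) : RankFn α where
  r := kFn k R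
  empty := by
    have := kFn_le k R (F := ∅) (B := ∅) (Subset.refl _)
    simp [R.empty] at this
    exact this
  mono {X Y} h := by
    obtain ⟨B, hB, h1⟩ := kFn_ex k R Y
    rw [h1]
    refine (kFn_le k R (B := B ∩ X) inter_subset_right).trans ?_
    have h2 := Nat.mul_le_mul_left k (R.mono (inter_subset_left : B ∩ X ⊆ B))
    have h3 : (X \ (B ∩ X)).card ≤ (Y \ B).card := by
      apply card_le_card
      intro e he
      rw [mem_sdiff, mem_inter] at he
      rw [mem_sdiff]
      exact ⟨h he.1, fun h' => he.2 ⟨h', he.1⟩⟩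
    omega
  insert_le X x := by
    obtain ⟨B, hB, h1⟩ := kFn_ex k R X
    rw [h1]
    refine (kFn_le k R (B := B) (hB.trans (subset_insert _ _))).trans ?_
    have : (insert x X \ B).card ≤ (X \ B).card + 1 := by
      refine (card_le_card (t := insert x (X \ B)) ?_).trans (card_insert_le _ _)
      intro e he
      rw [mem_sdiff, mem_insert] at he
      rw [mem_insert, mem_sdiff]
      tauto
    omega
  submod X Y := by
    obtain ⟨B1, hB1, h1⟩ := kFn_ex k R X
    obtain ⟨B2, hB2, h2⟩ := kFn_ex k R Y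
    have h3 := kFn_le k R (union_subset_union hB1 hB2)
    have h4 := kFn_le k R (inter_subset_inter hB1 hB2)
    have h5 := Nat.mul_le_mul_left k (R.submod B1 B2)
    rw [Nat.mul_add, Nat.mul_add] at h5
    have h6 := card_sdiff_le hB1 hB2
    omega

/-- `D` is `s`-strong with respect to the rank `ρ` -/
def St (R : RankFn α) (s ρ : ℕ) (D : Finset α) : Prop := ∀ F ⊆ D, s * ρ ≤ s * R.r F + (D \ F).card

/-- thinning by groups of size at most `b` -/
theorem thin {ι : Type} [DecidableEq ι] (R : RankFn α) (s ρ b : ℕ) (hb : 1 ≤ b) (D : Finset α)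
    (h : St R (b * s) ρ D) (g : α → ι) (hg : ∀ x ∈ D, (D.filter (fun y => g y = g x)).card ≤ b) :
    ∃ D' ⊆ D, (∀ x ∈ D', ∀ y ∈ D', g x = g y → x = y) ∧ St R s ρ D' := by
  classical
  rcases D.eq_empty_or_nonempty with rfl | ⟨a0, _⟩
  · refine ⟨∅, Subset.refl _, by simp, ?_⟩
    intro F hF
    rw [subset_empty] at hF
    subst hF
    have h0 := h ∅ (Subset.refl _)
    have e1 : ((∅ : Finset α) \ ∅).card = 0 := by simp
    rw [R.empty, mul_zero, e1] at h0
    rw [R.empty, mul_zero, e1]
    have h1 : b * (s * ρ) = b * s * ρ := by ring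
    have h2 : s * ρ ≤ b * (s * ρ) := Nat.le_mul_of_pos_left _ hb
    omega
  have : Nonempty α := ⟨a0⟩
  set J₀ : Finset ι := D.image g with hJ₀
  set A : ι → Finset α := fun j => D.filter (fun y => g y = j) with hA
  have hAc : ∀ j ∈ J₀, (A j).card ≤ b := by
    intro j hj
    obtain ⟨x, hx, rfl⟩ := mem_image.1 hj
    exact hg x hx
  have key : ∀ J ⊆ J₀, J.card + s * ρ ≤ (kRank s R).r (J.biUnion A) + J₀.card := by
    intro J hJ
    obtain ⟨B, hB, h1⟩ := kFn_ex s R (J.biUnion A)
    show _ ≤ kFn s R (J.biUnion A) + _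
    have hFD : J.biUnion A ⊆ D := by
      intro x hx
      obtain ⟨j, _, hj⟩ := mem_biUnion.1 hx
      exact (mem_filter.1 hj).1
    have h2 := h B (hB.trans hFD)
    have h3 : (D \ B).card ≤ (J.biUnion A \ B).card + ((J₀ \ J).biUnion A).card := by
      refine (card_le_card (t := (J.biUnion A \ B) ∪ ((J₀ \ J).biUnion A)) ?_).trans (card_union_le _ _)
      intro x hx
      rw [mem_sdiff] at hx
      rw [mem_union]
      have hx2 : g x ∈ J₀ := mem_image_of_mem g hx.1
      have hx3 : x ∈ A (g x) := mem_filter.2 ⟨hx.1, rfl⟩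
      by_cases hJx : g x ∈ J
      · exact Or.inl (mem_sdiff.2 ⟨mem_biUnion.2 ⟨_, hJx, hx3⟩, hx.2⟩)
      · exact Or.inr (mem_biUnion.2 ⟨_, mem_sdiff.2 ⟨hx2, hJx⟩, hx3⟩)
    have h4 : ((J₀ \ J).biUnion A).card ≤ b * (J₀ \ J).card := by
      refine card_biUnion_le.trans ?_
      refine (sum_le_card_nsmul _ _ b (fun j hj => hAc j (mem_sdiff.1 hj).1)).trans ?_
      rw [smul_eq_mul, mul_comm]
    have h5 : (J.biUnion A \ B).card ≤ b * (J.biUnion A \ B).card := Nat.le_mul_of_pos_left _ hb
    have h6 : b * (s * ρ) ≤ b * (s * R.r B + (J.biUnion A \ B).card + (J₀ \ J).card) := by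
      have e1 : b * (s * ρ) = b * s * ρ := by ring
      have e2 : b * (s * R.r B + (J.biUnion A \ B).card + (J₀ \ J).card)
          = b * s * R.r B + b * (J.biUnion A \ B).card + b * (J₀ \ J).card := by ring
      rw [e1, e2]
      omega
    have h7 := Nat.le_of_mul_le_mul_left h6 hb
    have h8 := card_sdiff_add_card_eq_card hJ
    rw [h1]
    omega
  have h0 : s * ρ ≤ J₀.card := by
    have := key ∅ (empty_subset _)
    rw [biUnion_empty, (kRank s R).empty] at this
    simpa using this
  obtain ⟨J1, hJ1, f, hf1, hf2, hf3⟩ := rado_defect (kRank s R) J₀ A (J₀.card - s * ρ) (by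
    intro J hJ
    have := key J hJ
    omega)
  have hgf : ∀ j ∈ J1, g (f j) = j := fun j hj => (mem_filter.1 (hf1 j hj)).2
  refine ⟨J1.image f, ?_, ?_, ?_⟩
  · intro x hx
    obtain ⟨j, hj, rfl⟩ := mem_image.1 hx
    exact (mem_filter.1 (hf1 j hj)).1
  · intro x hx y hy hxy
    obtain ⟨i, hi, rfl⟩ := mem_image.1 hx
    obtain ⟨j, hj, rfl⟩ := mem_image.1 hy
    rw [hgf i hi, hgf j hj] at hxy
    rw [hxy]
  · intro F hF
    have h1 := kFn_le s R hF
    have h2 : J1.card ≤ kFn s R (J1.image f) := hf2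
    omega

/-- a strong set contains `s` disjoint bases -/
theorem bases (R : RankFn α) (s ρ : ℕ) (D : Finset α) (h : St R s ρ D) (hρ : ∀ X : Finset α, R.r X ≤ ρ) :
    ∃ T : ℕ → Finset α, (∀ j < s, T j ⊆ D ∧ R.r (T j) = ρ) ∧
      (∀ i j, i ≠ j → Disjoint (T i) (T j)) := by
  classical
  rcases D.eq_empty_or_nonempty with rfl | ⟨a0, _⟩
  · refine ⟨fun _ => ∅, ?_, fun _ _ _ => disjoint_empty_left _⟩
    intro j hj
    refine ⟨Subset.refl _, ?_⟩
    have h0 := h ∅ (Subset.refl _)
    have e1 : ((∅ : Finset α) \ ∅).card = 0 := by simp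
    rw [R.empty, mul_zero, e1] at h0
    have h2 : ρ ≤ s * ρ := Nat.le_mul_of_pos_left _ (by omega)
    rw [R.empty]; omega
  have : Nonempty α := ⟨a0⟩
  have hNE : Nonempty (α × ℕ) := ⟨(a0, 0)⟩
  set A : α → Finset (α × ℕ) := fun e => (range s).image (fun j => (e, j)) with hA
  have key : ∀ J ⊆ D, J.card + s * ρ ≤ (prodRank (range s) R).r (J.biUnion A) + D.card := by
    intro J hJ
    have h1 : (prodRank (range s) R).r (J.biUnion A) = s * R.r J := by
      show ∑ i ∈ range s, R.r (slice i _) = _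
      have h2 : ∀ i ∈ range s, R.r (slice i (J.biUnion A)) = R.r J := by
        intro i hi
        congr 1
        ext e
        rw [CC.mem_slice, mem_biUnion]
        simp only [hA, mem_image, Prod.mk.injEq]
        constructor
        · rintro ⟨e', he', j, _, h3, _⟩
          rw [← h3]; exact he'
        · intro he
          exact ⟨e, he, i, hi, rfl, rfl⟩
      rw [sum_congr rfl h2, sum_const, card_range, smul_eq_mul]
    have h3 := h J hJ
    have h4 := card_sdiff_add_card_eq_card hJ
    rw [h1]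
    omega
  have h0 : s * ρ ≤ D.card := by
    have := key ∅ (empty_subset _)
    rw [biUnion_empty, (prodRank (range s) R).empty] at this
    simpa using this
  obtain ⟨J1, hJ1, f, hf1, hf2, hf3⟩ := rado_defect (prodRank (range s) R) D A (D.card - s * ρ) (by
    intro J hJ
    have := key J hJ
    omega)
  have hff : ∀ e ∈ J1, (f e).1 = e := by
    intro e he
    have := hf1 e he
    simp only [hA, mem_image] at this
    obtain ⟨j, _, hj⟩ := this
    rw [← hj]
  set T : ℕ → Finset α := fun j => slice j (J1.image f) with hT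
  have hTm : ∀ j e, e ∈ T j → e ∈ J1 ∧ f e = (e, j) := by
    intro j e he
    rw [hT, CC.mem_slice, mem_image] at he
    obtain ⟨e', he', h1⟩ := he
    have h2 := hff e' he'
    rw [h1] at h2
    simp only at h2
    subst h2
    exact ⟨he', h1⟩
  refine ⟨T, ?_, ?_⟩
  · intro j hj
    refine ⟨fun e he => hJ1 (hTm j e he).1, ?_⟩
    have hsum : J1.card ≤ ∑ i ∈ range s, R.r (T i) := hf2
    by_contra hcon
    have hlt : R.r (T j) < ρ := lt_of_le_of_ne (hρ _) hcon
    have h1 : ∑ i ∈ range s, R.r (T i) < ∑ i ∈ range s, ρ :=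
      sum_lt_sum (fun i _ => hρ _) ⟨j, mem_range.2 hj, hlt⟩
    rw [sum_const, card_range, smul_eq_mul] at h1
    omega
  · intro i j hij
    rw [Finset.disjoint_left]
    intro e he he'
    have h1 := (hTm i e he).2
    have h2 := (hTm j e he').2
    rw [h1] at h2
    exact hij (Prod.mk.inj h2).2

end Pool.Agent.Helper97.CD
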